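import Pool.Agent.Helper78.BPX.X1

/-!
PROJECT BP (MP_1cfd37_ag), block A, module A5: exactness at the spot `n` at complex regular points, from real matrices.
-/

set_option autoImplicit false

namespace Pool.Agent.Helper78.BPX

open MvPolynomial Pool.Agent.Helper21.BPA

section

variable {ι : Type}

/-- The complexification. -/
noncomputable def cx : MvPolynomial ι ℝ →+* MvPolynomial ι ℂ := MvPolynomial.map (algebraMap ℝ ℂ)

theorem cx_split (f : MvPolynomial ι ℂ) : ∃ a b : MvPolynomial ι ℝ, f = cx a + C Complex.I * cx b := by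
  induction f using MvPolynomial.induction_on with
  | C z =>
    refine ⟨C z.re, C z.im, ?_⟩
    simp only [cx, map_C]
    rw [← map_mul, ← map_add]
    congr 1
    have := Complex.re_add_im z
    simp only [Complex.coe_algebraMap]
    rw [mul_comm]
    exact this.symm
  | add f g hf hg =>
    obtain ⟨a, b, rfl⟩ := hf
    obtain ⟨a', b', rfl⟩ := hg
    refine ⟨a + a', b + b', ?_⟩
    rw [map_add, map_add]
    ring
  | mul_X f x hf =>
    obtain ⟨a, b, rfl⟩ := hf
    refine ⟨a * X x, b * X x, ?_⟩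
    have : cx (X x : MvPolynomial ι ℝ) = X x := by simp [cx]
    rw [map_mul, map_mul, this]
    ring

theorem cx_inj (a b : MvPolynomial ι ℝ) (h : cx a + C Complex.I * cx b = 0) : a = 0 ∧ b = 0 := by
  have h1 : ∀ m, ((coeff m a : ℝ) : ℂ) + Complex.I * ((coeff m b : ℝ) : ℂ) = 0 := by
    intro m
    have h2 := congrArg (coeff m) h
    rw [coeff_add, coeff_C_mul, coeff_zero] at h2
    simpa [cx, coeff_map] using h2
  constructor
  · ext m
    have h2 := congrArg Complex.re (h1 m)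
    simpa using h2
  · ext m
    have h2 := congrArg Complex.im (h1 m)
    simpa using h2

theorem cx_inj2 (a b a' b' : MvPolynomial ι ℝ) (h : cx a + C Complex.I * cx b = cx a' + C Complex.I * cx b') :
    a = a' ∧ b = b' := by
  have h1 : cx (a - a') + C Complex.I * cx (b - b') = 0 := by
    rw [map_sub, map_sub]
    linear_combination h
  obtain ⟨h2, h3⟩ := cx_inj _ _ h1
  exact ⟨sub_eq_zero.1 h2, sub_eq_zero.1 h3⟩

theorem cx_mem (F f : MvPolynomial ι ℝ) (h : f ∈ Ideal.span {F}) : cx f ∈ Ideal.span {cx F} := by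
  obtain ⟨g, rfl⟩ := Ideal.mem_span_singleton.1 h
  rw [map_mul]
  exact Ideal.mul_mem_right _ _ (Ideal.mem_span_singleton_self _)

theorem cx_mem_split (F a b : MvPolynomial ι ℝ) (h : cx a + C Complex.I * cx b ∈ Ideal.span {cx F}) :
    a ∈ Ideal.span {F} ∧ b ∈ Ideal.span {F} := by
  obtain ⟨g, hg⟩ := Ideal.mem_span_singleton.1 h
  obtain ⟨c, d, rfl⟩ := cx_split g
  have h1 : cx a + C Complex.I * cx b = cx (F * c) + C Complex.I * cx (F * d) := by
    rw [hg, map_mul, map_mul]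
    ring
  obtain ⟨h2, h3⟩ := cx_inj2 _ _ _ _ h1
  rw [h2, h3]
  exact ⟨Ideal.mul_mem_right _ _ (Ideal.mem_span_singleton_self _),
    Ideal.mul_mem_right _ _ (Ideal.mem_span_singleton_self _)⟩

theorem cx_mulVec {a b : ℕ} (M : Matrix (Fin a) (Fin b) (MvPolynomial ι ℝ)) (v v' : Fin b → MvPolynomial ι ℝ)
    (i : Fin a) : (M.map cx).mulVec (fun j => cx (v j) + C Complex.I * cx (v' j)) i =
      cx (M.mulVec v i) + C Complex.I * cx (M.mulVec v' i) := by
  simp only [Matrix.mulVec, dotProduct, Matrix.map_apply, map_sum, map_mul, Finset.mul_sum]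
  rw [← Finset.sum_add_distrib]
  refine Finset.sum_congr rfl fun j _ => ?_
  ring

theorem cx_ex {a b c : ℕ} (F : MvPolynomial ι ℝ) (P : Matrix (Fin a) (Fin b) (MvPolynomial ι ℝ))
    (Q : Matrix (Fin b) (Fin c) (MvPolynomial ι ℝ))
    (hex : ∀ v : Fin b → MvPolynomial ι ℝ, (∀ i, P.mulVec v i ∈ Ideal.span {F}) →
      ∃ u : Fin c → MvPolynomial ι ℝ, ∀ j, v j - Q.mulVec u j ∈ Ideal.span {F}) :
    ExI (Ideal.span {cx F}) (P.map cx) (Q.map cx) := by
  intro v hv
  choose v' v'' hvv using fun j => cx_split (v j)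
  obtain rfl : v = fun j => cx (v' j) + C Complex.I * cx (v'' j) := funext hvv
  have h1 : ∀ i, P.mulVec v' i ∈ Ideal.span {F} ∧ P.mulVec v'' i ∈ Ideal.span {F} := by
    intro i
    have h2 := hv i
    rw [cx_mulVec] at h2
    exact cx_mem_split F _ _ h2
  obtain ⟨u', hu'⟩ := hex v' fun i => (h1 i).1
  obtain ⟨u'', hu''⟩ := hex v'' fun i => (h1 i).2
  refine ⟨fun j => cx (u' j) + C Complex.I * cx (u'' j), fun j => ?_⟩
  rw [cx_mulVec]
  have e : cx (v' j) + C Complex.I * cx (v'' j) - (cx (Q.mulVec u' j) + C Complex.I * cx (Q.mulVec u'' j)) =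
      cx (v' j - Q.mulVec u' j) + C Complex.I * cx (v'' j - Q.mulVec u'' j) := by
    rw [map_sub, map_sub]
    ring
  rw [e]
  exact Ideal.add_mem _ (cx_mem F _ (hu' j)) (Ideal.mul_mem_left _ _ (cx_mem F _ (hu'' j)))

/-- A5: exactness at the spot `n` at the complex regular points of `F = 0`. -/
theorem x1c [Fintype ι] (F : MvPolynomial ι ℝ) (n : ℕ) (hn : Fintype.card ι ≤ n) (rk : ℕ → ℕ)
    (M : (i : ℕ) → Matrix (Fin (rk i)) (Fin (rk (i + 1))) (MvPolynomial ι ℝ))
    (hcomp : ∀ i < n, ∀ a b, (M i * M (i + 1)) a b ∈ Ideal.span {F})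
    (hex : ∀ i < n, ∀ v : Fin (rk (i + 1)) → MvPolynomial ι ℝ, (∀ a, (M i).mulVec v a ∈ Ideal.span {F}) →
      ∃ u : Fin (rk (i + 1 + 1)) → MvPolynomial ι ℝ, ∀ b, v b - (M (i + 1)).mulVec u b ∈ Ideal.span {F})
    (w : ι → ℂ) (hw : aeval w F = 0) (hd : ∃ x, aeval w (pderiv x F) ≠ 0) (i : ℕ) (hi : i + 1 = n) :
    Ex2 (evMat w (M i)) (evMat w (M (i + 1))) := by
  obtain ⟨x0, hx0⟩ := hd
  have ev : ∀ f : MvPolynomial ι ℝ, eval w (cx f) = aeval w f := by
    intro f
    rw [cx, eval_map, aeval_def]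
  have hder : eval w (pderiv x0 (cx F)) ≠ 0 := by
    have : pderiv x0 (cx F) = cx (pderiv x0 F) := by
      rw [cx, pderiv_map]
    rw [this, ev]
    exact hx0
  have hcomp' : ∀ i < n, ∀ a b, ((M i).map cx * (M (i + 1)).map cx) a b ∈ Ideal.span {cx F} := by
    intro i hi a b
    rw [← Matrix.map_mul]
    exact cx_mem F _ (hcomp i hi a b)
  have h := fibre (cx F) w (by rw [ev]; exact hw) x0 hder n hn rk (fun i => (M i).map cx) hcomp'
    (fun i hi => cx_ex F (M i) (M (i + 1)) (hex i hi)) i hi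
  have e : ∀ i, ((M i).map cx).map (eval w) = evMat w (M i) := by
    intro i
    ext a b
    simp only [Matrix.map_apply, evMat]
    exact ev _
  simp only [e] at h
  exact h

end

end Pool.Agent.Helper78.BPX
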