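import Pool.Agent.Helper21.BPA.Defs

/-!
PROJECT BP (MP_1cfd37_ag), block A, module A5: exactness at the spot `n` (`n` at least the number of variables) at complex regular points of `F = 0`.
-/

set_option autoImplicit false

namespace Pool.Agent.Helper78.BPX

open MvPolynomial Pool.Agent.Helper21.BPA

section

variable {K ι : Type} [Field K]

open Classical in
/-- Substitution of the values `w x`, `x ∈ T`. -/
noncomputable def rho (T : Set ι) (w : ι → K) : MvPolynomial ι K →ₐ[K] MvPolynomial ι K :=
  aeval (fun x => if x ∈ T then C (w x) else X x)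

/-- The ideal generated by `X x - w x`, `x ∈ T`. -/
noncomputable def lid (T : Set ι) (w : ι → K) : Ideal (MvPolynomial ι K) :=
  Ideal.span ((fun y => X y - C (w y)) '' T)

theorem rho_X_mem (T : Set ι) (w : ι → K) (x : ι) (hx : x ∈ T) : rho T w (X x) = C (w x) := by
  simp [rho, hx]

theorem rho_X_not (T : Set ι) (w : ι → K) (x : ι) (hx : x ∉ T) : rho T w (X x) = X x := by
  simp [rho, hx]

theorem rho_C (T : Set ι) (w : ι → K) (a : K) : rho T w (C a) = C a := by
  simp [rho]

theorem sub_rho_mem (T : Set ι) (w : ι → K) (f : MvPolynomial ι K) : f - rho T w f ∈ lid T w := by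
  induction f using MvPolynomial.induction_on with
  | C a => simp [rho]
  | add f g hf hg =>
    have h : f + g - rho T w (f + g) = (f - rho T w f) + (g - rho T w g) := by
      rw [map_add]; ring
    rw [h]
    exact Ideal.add_mem _ hf hg
  | mul_X f x hf =>
    have h : f * X x - rho T w (f * X x) = X x * (f - rho T w f) + rho T w f * (X x - rho T w (X x)) := by
      rw [map_mul]; ring
    rw [h]
    refine Ideal.add_mem _ (Ideal.mul_mem_left _ _ hf) (Ideal.mul_mem_left _ _ ?_)
    by_cases hx : x ∈ T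
    · rw [rho_X_mem T w x hx]
      exact Ideal.subset_span ⟨x, hx, rfl⟩
    · rw [rho_X_not T w x hx, sub_self]
      exact Ideal.zero_mem _

theorem rho_lid (T : Set ι) (w : ι → K) (f : MvPolynomial ι K) (hf : f ∈ lid T w) : rho T w f = 0 := by
  have h : lid T w ≤ RingHom.ker (rho T w).toRingHom := by
    rw [lid, Ideal.span_le]
    rintro _ ⟨y, hy, rfl⟩
    simp only [SetLike.mem_coe, RingHom.mem_ker]
    show rho T w (X y - C (w y)) = 0
    rw [map_sub, rho_X_mem T w y hy, rho_C, sub_self]
  exact h hf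

theorem eval_rho (T : Set ι) (w : ι → K) (f : MvPolynomial ι K) : eval w (rho T w f) = eval w f := by
  induction f using MvPolynomial.induction_on with
  | C a => simp [rho]
  | add f g hf hg => simp [hf, hg]
  | mul_X f x hf =>
    rw [map_mul, map_mul, hf, map_mul]
    by_cases hx : x ∈ T
    · rw [rho_X_mem T w x hx]; simp
    · rw [rho_X_not T w x hx]

theorem pderiv_rho (T : Set ι) (w : ι → K) (x0 : ι) (h0 : x0 ∉ T) (f : MvPolynomial ι K) :
    pderiv x0 (rho T w f) = rho T w (pderiv x0 f) := by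
  classical
  induction f using MvPolynomial.induction_on with
  | C a => simp [rho]
  | add f g hf hg => simp [hf, hg]
  | mul_X f x hf =>
    have h1 : pderiv x0 (rho T w (X x)) = rho T w (pderiv x0 (X x)) := by
      by_cases hx : x ∈ T
      · have hne : x ≠ x0 := fun h => h0 (h ▸ hx)
        rw [rho_X_mem T w x hx, pderiv_C, pderiv_X_of_ne hne, map_zero]
      · rw [rho_X_not T w x hx]
        by_cases hxx : x = x0
        · subst hxx
          simp
        · rw [pderiv_X_of_ne hxx, map_zero]
    rw [map_mul, pderiv_mul, pderiv_mul, map_add, map_mul, map_mul, hf, h1]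

theorem rho_rho (T : Set ι) (w : ι → K) (x : ι) (f : MvPolynomial ι K) :
    rho {x} w (rho T w f) = rho (insert x T) w f := by
  induction f using MvPolynomial.induction_on with
  | C a => simp [rho]
  | add f g hf hg => simp [hf, hg]
  | mul_X f y hf =>
    rw [map_mul, map_mul, hf, map_mul]
    congr 1
    by_cases hy : y ∈ T
    · rw [rho_X_mem T w y hy, rho_C, rho_X_mem _ w y (Set.mem_insert_of_mem _ hy)]
    · rw [rho_X_not T w y hy]
      by_cases hyx : y = x
      · subst hyx
        rw [rho_X_mem _ w y (Set.mem_singleton _), rho_X_mem _ w y (Set.mem_insert _ _)]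
      · rw [rho_X_not _ w y (by simpa using hyx), rho_X_not _ w y (by simp [hyx, hy])]

theorem dvd_of_rho (w : ι → K) (x : ι) (f : MvPolynomial ι K) (h : rho {x} w f = 0) :
    ∃ g, f = (X x - C (w x)) * g := by
  have h1 := sub_rho_mem {x} w f
  rw [h, sub_zero, lid, Set.image_singleton, Ideal.mem_span_singleton] at h1
  exact h1

/-- The ideal `(F, X y - w y, y ∈ T)`. -/
noncomputable def IT (F : MvPolynomial ι K) (T : Set ι) (w : ι → K) : Ideal (MvPolynomial ι K) :=
  Ideal.span {F} ⊔ lid T w

theorem mem_IT_rho (F : MvPolynomial ι K) (T : Set ι) (w : ι → K) (h : MvPolynomial ι K) (k : MvPolynomial ι K)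
    (hk : rho T w h = rho T w F * k) : h ∈ IT F T w := by
  have e : h = (h - rho T w h) + (F * k - (F - rho T w F) * k) := by
    rw [hk]; ring
  rw [e]
  refine Ideal.add_mem _ (Ideal.mem_sup_right (sub_rho_mem T w h)) (Ideal.sub_mem _ ?_ ?_)
  · exact Ideal.mem_sup_left (Ideal.mul_mem_right _ _ (Ideal.mem_span_singleton_self F))
  · exact Ideal.mem_sup_right (Ideal.mul_mem_right _ _ (sub_rho_mem T w F))

theorem rho_of_mem_IT (F : MvPolynomial ι K) (T : Set ι) (w : ι → K) (h : MvPolynomial ι K) (hh : h ∈ IT F T w) :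
    ∃ k, rho T w h = rho T w F * k := by
  obtain ⟨a, ha, b, hb, rfl⟩ := Submodule.mem_sup.1 hh
  obtain ⟨k, rfl⟩ := Ideal.mem_span_singleton.1 ha
  exact ⟨rho T w k, by rw [map_add, rho_lid T w b hb, add_zero, map_mul]⟩

theorem regular_step (F : MvPolynomial ι K) (T : Set ι) (w : ι → K) (x0 : ι) (h0 : eval w (pderiv x0 F) ≠ 0)
    (hT : x0 ∉ T) (x : ι) (hx : x ∉ T) (hxx : x ≠ x0) (h : MvPolynomial ι K)
    (hh : (X x - C (w x)) * h ∈ IT F T w) : h ∈ IT F T w := by
  obtain ⟨k, hk⟩ := rho_of_mem_IT F T w _ hh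
  rw [map_mul, map_sub, rho_X_not T w x hx, rho_C] at hk
  have h1 : rho {x} w (rho T w F) * rho {x} w k = 0 := by
    rw [← map_mul, ← hk, map_mul, map_sub, rho_X_mem _ w x (Set.mem_singleton _), rho_C, sub_self, zero_mul]
  rcases mul_eq_zero.1 h1 with h2 | h2
  · exfalso
    rw [rho_rho] at h2
    have h3 : eval w (pderiv x0 (rho (insert x T) w F)) = eval w (pderiv x0 F) := by
      rw [pderiv_rho _ w x0 (by simp [hT, Ne.symm hxx]), eval_rho]
    rw [h2, map_zero, map_zero] at h3
    exact h0 h3.symm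
  · obtain ⟨g, hg⟩ := dvd_of_rho w x k h2
    have hne : (X x - C (w x) : MvPolynomial ι K) ≠ 0 := by
      intro h4
      have h5 := congrArg (pderiv x) h4
      simp at h5
    have h6 : rho T w h = rho T w F * g := by
      apply mul_left_cancel₀ hne
      rw [hk, hg]
      ring
    exact mem_IT_rho F T w h g h6

theorem IT_insert (F : MvPolynomial ι K) (T : Set ι) (w : ι → K) (x : ι) :
    IT F (insert x T) w = IT F T w ⊔ Ideal.span {X x - C (w x)} := by
  rw [IT, IT, lid, lid, Set.image_insert_eq, Ideal.span_insert]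
  rw [sup_assoc, sup_comm (Ideal.span {X x - C (w x)})]

/-- Exactness modulo an ideal. -/
def ExI {a b c : ℕ} (I : Ideal (MvPolynomial ι K))
    (P : Matrix (Fin a) (Fin b) (MvPolynomial ι K)) (Q : Matrix (Fin b) (Fin c) (MvPolynomial ι K)) : Prop :=
  ∀ v : Fin b → MvPolynomial ι K, (∀ i, P.mulVec v i ∈ I) →
    ∃ u : Fin c → MvPolynomial ι K, ∀ j, v j - Q.mulVec u j ∈ I

theorem mulVec_mem {a b : ℕ} (I : Ideal (MvPolynomial ι K)) (P : Matrix (Fin a) (Fin b) (MvPolynomial ι K))
    (v : Fin b → MvPolynomial ι K) (hv : ∀ j, v j ∈ I) (i : Fin a) : P.mulVec v i ∈ I := by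
  simp only [Matrix.mulVec, dotProduct]
  exact Ideal.sum_mem _ fun j _ => Ideal.mul_mem_left _ _ (hv j)

theorem exStep {a b c d : ℕ} (I : Ideal (MvPolynomial ι K)) (x : MvPolynomial ι K)
    (P : Matrix (Fin a) (Fin b) (MvPolynomial ι K)) (Q : Matrix (Fin b) (Fin c) (MvPolynomial ι K))
    (S : Matrix (Fin c) (Fin d) (MvPolynomial ι K)) (hPQ : ∀ i j, (P * Q) i j ∈ I) (h1 : ExI I P Q)
    (h2 : ExI I Q S) (hx : ∀ h, x * h ∈ I → h ∈ I) : ExI (I ⊔ Ideal.span {x}) Q S := by
  intro v hv
  -- `Q v = x g + r`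
  have h3 : ∀ i, ∃ g, Q.mulVec v i - x * g ∈ I := by
    intro i
    obtain ⟨r, hr, s, hs, he⟩ := Submodule.mem_sup.1 (hv i)
    obtain ⟨g, rfl⟩ := Ideal.mem_span_singleton.1 hs
    exact ⟨g, by rw [← he]; simpa using hr⟩
  choose g hg using h3
  have h4 : ∀ i, P.mulVec g i ∈ I := by
    intro i
    apply hx
    have h5 : P.mulVec (fun j => Q.mulVec v j - x * g j) i ∈ I := mulVec_mem I P _ hg i
    have h6 : P.mulVec (fun j => Q.mulVec v j - x * g j) i = (P * Q).mulVec v i - x * P.mulVec g i := by
      rw [← Matrix.mulVec_mulVec]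
      have e : (fun j => Q.mulVec v j - x * g j) = Q.mulVec v - x • g := by
        funext j
        simp
      rw [e, Matrix.mulVec_sub, Matrix.mulVec_smul]
      simp
    rw [h6] at h5
    have h7 : (P * Q).mulVec v i ∈ I := by
      simp only [Matrix.mulVec, dotProduct]
      exact Ideal.sum_mem _ fun j _ => Ideal.mul_mem_right _ _ (hPQ i j)
    have h8 := Ideal.sub_mem _ h7 h5
    simpa using h8
  obtain ⟨u, hu⟩ := h1 g h4
  have h9 : ∀ i, Q.mulVec (fun j => v j - x * u j) i ∈ I := by
    intro i
    have e : (fun j => v j - x * u j) = v - x • u := by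
      funext j
      simp
    rw [e, Matrix.mulVec_sub, Matrix.mulVec_smul]
    simp only [Pi.sub_apply, Pi.smul_apply, smul_eq_mul]
    have h10 : Q.mulVec v i - x * Q.mulVec u i = (Q.mulVec v i - x * g i) + x * (g i - Q.mulVec u i) := by ring
    rw [h10]
    exact Ideal.add_mem _ (hg i) (Ideal.mul_mem_left _ _ (hu i))
  obtain ⟨u', hu'⟩ := h2 _ h9
  refine ⟨u', fun j => ?_⟩
  have h11 : v j - S.mulVec u' j = (v j - x * u j - S.mulVec u' j) + x * u j := by ring
  rw [h11]
  refine Ideal.add_mem _ (Ideal.mem_sup_left (hu' j)) (Ideal.mem_sup_right ?_)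
  exact Ideal.mul_mem_right _ _ (Ideal.mem_span_singleton_self x)

/-- After dividing by `card T` coordinates. -/
theorem exT (F : MvPolynomial ι K) (w : ι → K) (x0 : ι) (h0 : eval w (pderiv x0 F) ≠ 0) (n : ℕ) (rk : ℕ → ℕ)
    (M : (i : ℕ) → Matrix (Fin (rk i)) (Fin (rk (i + 1))) (MvPolynomial ι K))
    (hcomp : ∀ i < n, ∀ a b, (M i * M (i + 1)) a b ∈ Ideal.span {F})
    (hex : ∀ i < n, ExI (Ideal.span {F}) (M i) (M (i + 1))) (T : Finset ι) (hT : x0 ∉ T) :
    ∀ i < n, T.card ≤ i → ExI (IT F (T : Set ι) w) (M i) (M (i + 1)) := by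
  classical
  induction T using Finset.induction_on with
  | empty =>
    intro i hi _
    have e : IT F ((∅ : Finset ι) : Set ι) w = Ideal.span {F} := by
      simp [IT, lid]
    rw [e]
    exact hex i hi
  | insert x T hx ih =>
    intro i hi hc
    rw [Finset.card_insert_of_notMem hx] at hc
    obtain ⟨j, rfl⟩ : ∃ j, i = j + 1 := ⟨i - 1, by omega⟩
    rw [Finset.mem_insert, not_or] at hT
    have ih' := ih hT.2
    rw [Finset.coe_insert, IT_insert]
    refine exStep _ _ (M j) (M (j + 1)) (M (j + 1 + 1)) (fun a b => ?_) (ih' j (by omega) (by omega))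
      (ih' (j + 1) hi (by omega)) ?_
    · exact Ideal.mem_sup_left (hcomp j (by omega) a b)
    · intro h hh
      exact regular_step F T w x0 h0 (by simpa using hT.2) x (by simpa using hx) (Ne.symm hT.1) h hh

theorem point_mem (w : ι → K) (h : MvPolynomial ι K) (hh : eval w h = 0) : h ∈ lid Set.univ w := by
  have h1 := sub_rho_mem Set.univ w h
  have h2 : rho Set.univ w h = C (eval w h) := by
    induction h using MvPolynomial.induction_on with
    | C a => simp [rho]
    | add f g hf hg =>
      clear h1 hh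
      have : ∀ f : MvPolynomial ι K, rho Set.univ w f = C (eval w f) := by
        intro f
        induction f using MvPolynomial.induction_on with
        | C a => simp [rho]
        | add f g hf hg => simp [hf, hg]
        | mul_X f x hf => simp [hf, rho_X_mem]
      exact this _
    | mul_X f x hf =>
      clear h1 hh
      have : ∀ f : MvPolynomial ι K, rho Set.univ w f = C (eval w f) := by
        intro f
        induction f using MvPolynomial.induction_on with
        | C a => simp [rho]
        | add f g hf hg => simp [hf, hg]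
        | mul_X f x hf => simp [hf, rho_X_mem]
      exact this _
  rw [h2, hh, map_zero, sub_zero] at h1
  exact h1

/-- An element with nonzero value at `w` which multiplies the ideal of the point into `(F, X x - w x, x ≠ x0)`. -/
theorem exists_q [Fintype ι] [DecidableEq ι] (F : MvPolynomial ι K) (w : ι → K) (hw : eval w F = 0) (x0 : ι)
    (h0 : eval w (pderiv x0 F) ≠ 0) :
    ∃ q : MvPolynomial ι K, eval w q ≠ 0 ∧ ∀ h, eval w h = 0 →
      q * h ∈ IT F ((Finset.univ.erase x0 : Finset ι) : Set ι) w := by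
  set T : Set ι := ((Finset.univ.erase x0 : Finset ι) : Set ι) with hTdef
  have hx0 : x0 ∉ T := by simp [hTdef]
  have hins : insert x0 T = Set.univ := by
    ext y
    by_cases hy : y = x0 <;> simp [hTdef, hy]
  have h1 : rho {x0} w (rho T w F) = 0 := by
    rw [rho_rho, hins]
    have h2 := rho_lid Set.univ w F (point_mem w F hw)
    exact h2
  obtain ⟨q, hq⟩ := dvd_of_rho w x0 _ h1
  refine ⟨q, ?_, ?_⟩
  · have h3 : eval w (pderiv x0 (rho T w F)) = eval w (pderiv x0 F) := by
      rw [pderiv_rho T w x0 hx0, eval_rho]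
    rw [hq, pderiv_mul, map_add, map_mul, map_mul] at h3
    simp only [map_sub, pderiv_X_self, pderiv_C, sub_zero, map_one, one_mul, eval_X, eval_C, sub_self,
      zero_mul, add_zero] at h3
    rw [h3]
    exact h0
  · intro h hh
    have h4 := point_mem w h hh
    have h5 : lid Set.univ w ≤ (IT F T w).colon (Ideal.span {q}) := by
      rw [lid, Ideal.span_le]
      rintro _ ⟨y, -, rfl⟩
      rw [SetLike.mem_coe, Ideal.mem_colon_span_singleton]
      by_cases hy : y = x0
      · subst hy
        simp only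
        rw [← hq]
        have e : rho T w F = F - (F - rho T w F) := by ring
        rw [e]
        exact Ideal.sub_mem _ (Ideal.mem_sup_left (Ideal.mem_span_singleton_self F))
          (Ideal.mem_sup_right (sub_rho_mem T w F))
      · refine Ideal.mul_mem_right _ _ (Ideal.mem_sup_right (Ideal.subset_span ⟨y, ?_, rfl⟩))
        simp [hTdef, hy]
    have h6 := h5 h4
    rw [Ideal.mem_colon_span_singleton] at h6
    rwa [mul_comm]

theorem eval_IT (F : MvPolynomial ι K) (T : Set ι) (w : ι → K) (hw : eval w F = 0) (h : MvPolynomial ι K)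
    (hh : h ∈ IT F T w) : eval w h = 0 := by
  obtain ⟨k, hk⟩ := rho_of_mem_IT F T w h hh
  rw [← eval_rho T w, hk, map_mul, eval_rho, hw, zero_mul]

/-- Fibre exactness over a field. -/
theorem fibre [Fintype ι] (F : MvPolynomial ι K) (w : ι → K) (hw : eval w F = 0) (x0 : ι)
    (h0 : eval w (pderiv x0 F) ≠ 0) (n : ℕ) (hn : Fintype.card ι ≤ n) (rk : ℕ → ℕ)
    (M : (i : ℕ) → Matrix (Fin (rk i)) (Fin (rk (i + 1))) (MvPolynomial ι K))
    (hcomp : ∀ i < n, ∀ a b, (M i * M (i + 1)) a b ∈ Ideal.span {F})
    (hex : ∀ i < n, ExI (Ideal.span {F}) (M i) (M (i + 1))) (i : ℕ) (hi : i + 1 = n) :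
    Ex2 ((M i).map (eval w)) ((M (i + 1)).map (eval w)) := by
  classical
  have hT := exT F w x0 h0 n rk M hcomp hex (Finset.univ.erase x0) (by simp) i (by omega)
    (by
      rw [Finset.card_erase_of_mem (Finset.mem_univ _), Finset.card_univ]
      omega)
  obtain ⟨q, hq, hqm⟩ := exists_q F w hw x0 h0
  have key : ∀ {a b : ℕ} (P : Matrix (Fin a) (Fin b) (MvPolynomial ι K)) (v : Fin b → MvPolynomial ι K) (j : Fin a),
      eval w (P.mulVec v j) = (P.map (eval w)).mulVec (fun k => eval w (v k)) j := by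
    intro a b P v j
    simp [Matrix.mulVec, dotProduct, map_sum]
  intro v
  constructor
  · intro hv
    have h1 : ∀ a, (M i).mulVec (fun j => q * C (v j)) a ∈ IT F ((Finset.univ.erase x0 : Finset ι) : Set ι) w := by
      intro a
      have e : (fun j => q * C (v j)) = q • (fun j => (C (v j) : MvPolynomial ι K)) := by
        funext j
        simp
      rw [e, Matrix.mulVec_smul]
      simp only [Pi.smul_apply, smul_eq_mul]
      apply hqm
      rw [key]
      simp only [eval_C]
      exact congrFun hv a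
    obtain ⟨u, hu⟩ := hT _ h1
    refine ⟨(eval w q)⁻¹ • fun k => eval w (u k), ?_⟩
    rw [Matrix.mulVec_smul]
    funext j
    have h2 := eval_IT F _ w hw _ (hu j)
    rw [map_sub, key, map_mul, eval_C, sub_eq_zero] at h2
    simp only [Pi.smul_apply, smul_eq_mul]
    rw [← h2, ← mul_assoc, inv_mul_cancel₀ hq, one_mul]
  · rintro ⟨u, rfl⟩
    rw [Matrix.mulVec_mulVec]
    have h3 : (M i).map (eval w) * (M (i + 1)).map (eval w) = 0 := by
      rw [← Matrix.map_mul]
      ext a b
      simp only [Matrix.map_apply, Matrix.zero_apply]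
      obtain ⟨k, hk⟩ := Ideal.mem_span_singleton.1 (hcomp i (by omega) a b)
      rw [hk, map_mul, hw, zero_mul]
    rw [h3, Matrix.zero_mulVec]

end

end Pool.Agent.Helper78.BPX
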